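import Pool.Agent.MP_bd94e8_al.H83A.Cor

/-!
The test for the separated quiver.
-/

set_option autoImplicit false
set_option linter.unusedSectionVars false

namespace Pool.Agent.MP_bd94e8_al.H83A

open Module Function Finset H83 H83.H H89

namespace SepQA

variable {C A : Type} [CommRing C] [IsArtinianRing C] [Ring A] [Algebra C A] [Module.Finite C A]

/-- The relation given by a connection on the cokernel of the generic matrix. -/
theorem rel (hc : ConnA C A) {T₁ T₀ : Type} [Fintype T₁] [Fintype T₀] {n : ℕ}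
    (w : Fin n → T₁ → T₀ → A) (k : Fin n) :
    ∃ (α : T₁ → T₁ → H C A) (β : T₀ → T₀ → H C A), ∀ a b, tv C k • sgl C A A (w k a b) =
      ∑ j : Fin n, tv C j • (∑ a', H.map (LinearMap.mulRight C (w j a' b)) (α a a') +
        ∑ b', H.map (LinearMap.mulLeft C (w j a b')) (β b' b)) := by
  classical
  let φ : (T₁ → H C A) →ₗ[K C] (T₀ → H C A) := LinearMap.pi fun b =>
    ∑ j : Fin n, tv C j • ∑ a, H.map (LinearMap.mulRight C (w j a b)) ∘ₗ LinearMap.proj a
  have hφ : ∀ y b, φ y b =
      ∑ j : Fin n, tv C j • ∑ a, H.map (LinearMap.mulRight C (w j a b)) (y a) := fun y b => by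
    simp [φ]
  have hW : ∀ (x : A), ∀ y ∈ LinearMap.range φ, x • y ∈ LinearMap.range φ := by
    rintro x _ ⟨y, rfl⟩
    refine ⟨x • y, funext fun b => ?_⟩
    rw [Pi.smul_apply, hφ, hφ, smul_sum]
    refine sum_congr rfl fun j _ => ?_
    rw [smul_comm x, smul_sum (r := x)]
    exact congrArg _ (sum_congr rfl fun a _ => H.ext fun g => by simp [mul_assoc])
  let π : (T₀ → H C A) →ₗ[K C] Quo _ hW := Quo.mk _ hW
  let π' : (T₀ → H C A) →ₗ[A] Quo _ hW := toA π (Quo.smul_mk _ hW)
  obtain ⟨D, hD⟩ := hc (Quo _ hW) (ne_top_of_le_ne_top length_ne_top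
    (length_le_of_surjective π (Quo.surj _ hW))) k
  choose β hβ using fun b : T₀ => Quo.surj _ hW (-D (π (Pi.single b (sgl C A A 1))))
  have h1 : ∀ j a, D (π fun b => sgl C A A (w j a b)) = -π (∑ b, w j a b • β b) := fun j a => by
    have e : (fun b => sgl C A A (w j a b)) =
        ∑ b, w j a b • (Pi.single b (sgl C A A 1) : T₀ → H C A) := by
      funext b
      rw [Finset.sum_apply, sum_eq_single b (fun b' _ h => by simp [Ne.symm h]) (by simp),
        Pi.smul_apply, Pi.single_eq_same, ← map_smul, smul_eq_mul, mul_one]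
    rw [e]
    change D (π' _) = -π' _
    rw [map_sum, map_sum, map_sum, ← sum_neg_distrib]
    refine sum_congr rfl fun b _ => ?_
    rw [map_smul, map_smul, map_smul, ← smul_neg]
    exact congrArg _ (neg_eq_iff_eq_neg.1 (hβ b).symm)
  have h2 : ∀ a, (tv C k • fun b => sgl C A A (w k a b)) -
      ∑ j : Fin n, tv C j • ∑ b, w j a b • β b ∈ LinearMap.range φ := fun a => by
    have e : φ (Pi.single a (sgl C A A 1)) =
        ∑ j : Fin n, tv C j • fun b => sgl C A A (w j a b) := by
      funext b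
      rw [hφ, Finset.sum_apply]
      refine sum_congr rfl fun j _ => ?_
      rw [sum_eq_single a (fun a' _ h => by simp [h]) (by simp), Pi.single_eq_same,
        map_sgl (A' := A), Pi.smul_apply, LinearMap.mulRight_apply, one_mul]
    have e1 := congrArg D ((Quo.mk_eq_zero _ hW).2 ⟨Pi.single a (sgl C A A 1), rfl⟩)
    change D (π _) = _ at e1
    rw [e, map_sum, map_sum, map_zero] at e1
    simp only [map_smul, hD, thK_tv, sum_add_distrib, ite_smul, zero_smul, Fin.val_inj,
      sum_ite_eq, mem_univ, if_true, h1, smul_neg, sum_neg_distrib] at e1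
    refine (Quo.mk_eq_zero _ hW).1 ?_
    change π _ = 0
    rw [map_sub, map_sum, ← e1, sub_eq_add_neg]
    simp only [map_smul]
  choose α hα using h2
  refine ⟨α, β, fun a b => ?_⟩
  have e := congrFun (hα a) b
  rw [hφ, Pi.sub_apply, eq_sub_iff_add_eq, Finset.sum_apply, ← sum_add_distrib] at e
  refine e.symm.trans (sum_congr rfl fun j _ => ?_)
  rw [smul_add, Pi.smul_apply, Finset.sum_apply]
  rfl

/-- The count of lengths. -/
theorem count {I J M : Type} [Fintype I] [Fintype J] [AddCommGroup M] [Module C M]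
    [Module.Finite C M] {Q : I → Type} [∀ i, AddCommGroup (Q i)] [∀ i, Module C (Q i)]
    (σ : ∀ i, A →ₗ[C] Q i) (hσ : ∀ i, Surjective (σ i)) (W : J → Submodule C M) {n : ℕ}
    (L : Fin n → J → I → (A →ₗ[C] M)) (hL : ∀ j p i x, σ i x = 0 → L j p i x = 0) (x : I → A)
    (h0 : ∃ i, σ i (x i) ≠ 0) (h1 : ∀ j p, ∑ i, L j p i (x i) = 0) (w : Fin n → J → M)
    (hw : ∀ y : J → M, (∀ p, y p ∈ W p) → y ∈ Submodule.span C (Set.range w))
    (h2 : ∀ k : Fin n, ∃ g : I → H C A, ∀ p, tv C k • sgl C M C (w k p) =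
      ∑ j : Fin n, tv C j • ∑ i, H.map (L j p i) (g i)) :
    ∑ p, len C (W p) < ∑ i, len C (Q i) := by
  classical
  have := fun i => Module.Finite.of_surjective (σ i) (hσ i)
  let Γ : (I → H C A) →ₗ[K C] (J → H C M) := LinearMap.pi fun p =>
    ∑ j : Fin n, tv C j • ∑ i, H.map (L j p i) ∘ₗ LinearMap.proj i
  have hΓ : ∀ g p, Γ g p = ∑ j : Fin n, tv C j • ∑ i, H.map (L j p i) (g i) := fun g p => by
    simp [Γ]
  let τ : (I → H C A) →ₗ[K C] ∀ i, H C (Q i) :=
    LinearMap.pi fun i => H.map (σ i) ∘ₗ LinearMap.proj i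
  have hτ : Surjective τ := fun y => by
    choose g hg using fun i => map_surj (hσ i) (y i)
    exact ⟨g, funext hg⟩
  obtain ⟨Φ, hΦ⟩ := exists_desc hτ Γ fun g hg => funext fun p => by
    rw [hΓ]
    refine sum_eq_zero fun j _ => ?_
    rw [sum_eq_zero, smul_zero]
    exact fun i _ => H.ext fun c => hL j p i _ (congrArg (fun y => cf y c) (congrFun hg i))
  have hΦ' : ∀ g, Φ (τ g) = Γ g := LinearMap.congr_fun hΦ
  have hk : LinearMap.ker Φ ≠ ⊥ := by
    obtain ⟨i, hi⟩ := h0
    refine (Submodule.ne_bot_iff _).2 ⟨τ fun i => sgl C A C (x i), ?_, fun h => hi ?_⟩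
    · rw [LinearMap.mem_ker, hΦ']
      funext p
      rw [hΓ]
      refine sum_eq_zero fun j _ => ?_
      simp only [map_sgl (A' := C)]
      rw [← map_sum, h1, map_zero, smul_zero]
    · have e := congrArg (fun y => cf y 0) (congrFun h i)
      simpa [τ, cf_sgl] using e
  let s : (J → M) →ₗ[C] (J → H C M) := LinearMap.pi fun p => sgl C M C ∘ₗ LinearMap.proj p
  have hs : Submodule.span C (Set.range w) ≤
      ((LinearMap.range Φ).restrictScalars C).comap s := by
    refine Submodule.span_le.2 ?_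
    rintro _ ⟨k, rfl⟩
    obtain ⟨g, hg⟩ := h2 k
    refine (Submodule.smul_mem_iff_of_isUnit (LinearMap.range Φ) (tv_unit (C := C) k)).1
      ⟨τ g, funext fun p => ?_⟩
    rw [hΦ', hΓ, ← hg]
    rfl
  let ι : (∀ p, H C (W p)) →ₗ[K C] (J → H C M) :=
    LinearMap.pi fun p => H.map (W p).subtype ∘ₗ LinearMap.proj p
  have hι : ∀ y, ι y ∈ LinearMap.range Φ := fun y => by
    rw [← Finset.univ_sum_single (ι y)]
    refine Submodule.sum_mem _ fun p _ => mem_of_cf (A := C) (W p)
      ((LinearMap.range Φ).comap (LinearMap.single (K C) (fun _ => H C M) p)) (fun z hz => ?_) _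
      fun c => ((y p).cf c).2
    have e : s (Pi.single p z) = Pi.single p (sgl C M C z) := funext fun q => by
      by_cases h : q = p
      · subst h; simp [s]
      · simp [s, h]
    refine (congrArg (· ∈ LinearMap.range Φ) e).mp (hs (hw _ fun q => ?_))
    by_cases h : q = p
    · subst h; simpa using hz
    · simp [h]
  have l1 := length_le_of_injective (ι.codRestrict _ hι) fun y y' e => funext fun p =>
    map_inj (W p).subtype_injective (congrFun (congrArg Subtype.val e) p)
  have l2 := l1.trans_lt (Φ.quotKerEquivRange.length_eq.symm.trans_lt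
    (Submodule.length_quotient_lt _ hk))
  rw [length_pi_of_fintype, length_pi_of_fintype] at l2
  simp only [len_eq] at l2
  simp only [← len_cast] at l2
  exact_mod_cast l2

/-- The projection to a corner modulo `R`. -/
noncomputable def pc {u v : A} (hu : IsIdempotentElem u) (hv : IsIdempotentElem v)
    (R : Submodule C A) : A →ₗ[C] (cn u v ⊤).map R.mkQ :=
  (R.mkQ ∘ₗ LinearMap.mulRight C v ∘ₗ LinearMap.mulLeft C u).codRestrict _ fun x =>
    ⟨u * x * v, ⟨trivial, cn_cn hu hv x⟩, rfl⟩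

theorem pc_surj {u v : A} (hu : IsIdempotentElem u) (hv : IsIdempotentElem v)
    (R : Submodule C A) : Surjective (pc hu hv R) := by
  rintro ⟨_, x, hx, rfl⟩
  exact ⟨x, Subtype.ext (congrArg R.mkQ hx.2)⟩

theorem pc_zero {u v : A} (hu : IsIdempotentElem u) (hv : IsIdempotentElem v)
    (R : Submodule C A) (x : A) : pc hu hv R x = 0 ↔ u * x * v ∈ R :=
  Subtype.ext_iff.trans (Submodule.Quotient.mk_eq_zero R)

end SepQA

open SepQA in
theorem sepQ : SSepQ := by
  intro C A _ _ _ _ _ hc T₁ T₀ _ _ u v R W W₂ hu hv hl hr hne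
  classical
  obtain ⟨n, w, hw⟩ := Submodule.fg_iff_exists_fin_generating_family.1 (IsNoetherian.noetherian
    (Submodule.pi Set.univ fun p : T₁ × T₀ => cn (u p.1) (v p.2) W))
  have hm : ∀ j a b, w j (a, b) ∈ cn (u a) (v b) W := fun j a b =>
    hw.le (Submodule.subset_span (Set.mem_range_self j)) (a, b) trivial
  let e : (T₁ × T₁) ⊕ (T₀ × T₀) → A := Sum.elim (fun q => u q.1) fun q => v q.1
  let e' : (T₁ × T₁) ⊕ (T₀ × T₀) → A := Sum.elim (fun q => u q.2) fun q => v q.2
  have he : ∀ i, IsIdempotentElem (e i) := Sum.rec (fun _ => hu _) fun _ => hv _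
  have he' : ∀ i, IsIdempotentElem (e' i) := Sum.rec (fun _ => hu _) fun _ => hv _
  let m : A → A → (A →ₗ[C] A ⧸ W₂) := fun x y =>
    W₂.mkQ ∘ₗ LinearMap.mulRight C y ∘ₗ LinearMap.mulLeft C x
  have hm' : ∀ x y z, m x y z = W₂.mkQ (x * z * y) := fun _ _ _ => rfl
  have key := count (fun i => pc (he i) (he' i) R) (fun i => pc_surj _ _ R)
    (fun p : T₁ × T₀ => (cn (u p.1) (v p.2) W).map W₂.mkQ)
    (fun j p => Sum.elim (fun q => if q.1 = p.1 then m (u p.1) (w j (q.2, p.2)) else 0)
      fun q => if q.2 = p.2 then m (w j (p.1, q.1)) (v p.2) else 0) ?_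
    (Sum.elim (fun q => if q.1 = q.2 then 1 else 0) fun q => if q.1 = q.2 then -1 else 0) ?_ ?_
    (fun j p => W₂.mkQ (w j p)) ?_ ?_
  · simp only [Fintype.sum_sum_type, Fintype.sum_prod_type] at key
    exact key
  · rintro j ⟨a, b⟩ (⟨a1, a'⟩ | ⟨b', b1⟩) x hx <;> rw [pc_zero] at hx <;>
      simp only [Sum.elim_inl, Sum.elim_inr] <;> split_ifs with h
    · subst h
      refine (Submodule.Quotient.mk_eq_zero W₂).2 ?_
      have := hl a1 a' b _ ⟨hx, cn_cn (hu a1) (hu a') x⟩ _ (hm j a' b)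
      change u a1 * x * u a' * _ ∈ _ at this
      rwa [mul_assoc, cn_left (hu a') (hm j a' b).2] at this
    · rfl
    · subst h
      refine (Submodule.Quotient.mk_eq_zero W₂).2 ?_
      have := hr a b' b1 _ (hm j a b') _ ⟨hx, cn_cn (hv b') (hv b1) x⟩
      change _ * (v b' * x * v b1) ∈ _ at this
      rwa [← mul_assoc, ← mul_assoc, cn_right (hv b') (hm j a b').2] at this
    · rfl
  · rcases hne with ⟨a, h⟩ | ⟨b, h⟩
    · exact ⟨Sum.inl (a, a), fun h' => h (by simpa [e, e', (hu a).eq] using (pc_zero _ _ R _).1 h')⟩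
    · exact ⟨Sum.inr (b, b), fun h' => h (by simpa [e, e', (hv b).eq] using (pc_zero _ _ R _).1 h')⟩
  · rintro j ⟨a, b⟩
    rw [Fintype.sum_sum_type, sum_eq_single (a, a) _ (by simp), sum_eq_single (b, b) _ (by simp)]
    · simp [hm', cn_left (hu a) (hm j a b).2, cn_right (hv b) (hm j a b).2]
    · rintro ⟨b', b1⟩ - h
      by_cases h1 : b1 = b
      · have h2 : b' ≠ b1 := fun h2 => h (by rw [h2, h1])
        simp [h2]
      · simp [h1]
    · rintro ⟨a1, a'⟩ - h
      by_cases h1 : a1 = a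
      · have h2 : a1 ≠ a' := fun h2 => h (by rw [← h2, h1])
        simp [h2]
      · simp [h1]
  · intro y hy
    choose z hz hz' using hy
    have h1 : z ∈ Submodule.span C (Set.range w) := hw ▸ fun p _ => hz p
    obtain ⟨c, rfl⟩ := (Submodule.mem_span_range_iff_exists_fun C).1 h1
    refine (Submodule.mem_span_range_iff_exists_fun C).2 ⟨c, funext fun p => ?_⟩
    rw [← hz' p]
    simp
  · intro k
    obtain ⟨α, β, h⟩ := rel hc (fun j a b => w j (a, b)) k
    refine ⟨Sum.elim (fun q => α q.1 q.2) fun q => β q.1 q.2, fun ⟨a, b⟩ => ?_⟩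
    have h1 := congrArg (H.map (m (u a) (v b))) (h a b)
    rw [map_smul, map_sgl (A' := C), hm', (hm k a b).2, map_sum] at h1
    refine h1.trans (sum_congr rfl fun j _ => ?_)
    rw [map_smul, map_add, map_sum, map_sum, Fintype.sum_sum_type, Fintype.sum_prod_type_right,
      Fintype.sum_prod_type]
    refine congrArg _ (congrArg₂ _ (sum_congr rfl fun a' _ => ?_) (sum_congr rfl fun b' _ => ?_))
    · rw [sum_eq_single a (fun a1 _ ha => H.ext fun g => by simp [ha]) (by simp)]
      exact H.ext fun g => by simp [hm', mul_assoc, cn_right (hv b) (hm j a' b).2]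
    · rw [sum_eq_single b (fun b1 _ hb => H.ext fun g => by simp [hb]) (by simp)]
      exact H.ext fun g => by simp [hm', ← mul_assoc, cn_left (hu a) (hm j a b').2]

end Pool.Agent.MP_bd94e8_al.H83A
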